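import Mathlib

/-!
# Sierpinski triangle graphs and packing colourings

`base n` is the set of lower-left corners (in lattice coordinates) of the `3 ^ n` smallest
triangles of the `n`-th stage of the Sierpinski triangle; the triangle with lower-left corner
`(a, b)` has corners `(a, b)`, `(a + 1, b)`, `(a, b + 1)`.
-/

namespace Pool.Agent.Helper32.SierTri

/-- Lower-left corners of the small triangles of stage `n`: the stage `n + 1` consists of three
copies of stage `n`, at the origin, moved by `2 ^ n` to the right and moved by `2 ^ n` up. -/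
def base : ℕ → Finset (ℕ × ℕ)
  | 0 => {(0, 0)}
  | n + 1 => base n ∪ (base n).image (fun p => (p.1 + 2 ^ n, p.2)) ∪
      (base n).image (fun p => (p.1, p.2 + 2 ^ n))

/-- The three corner points of the small triangle with lower-left corner `t`. -/
def tri (t : ℕ × ℕ) : Finset (ℕ × ℕ) := {(t.1, t.2), (t.1 + 1, t.2), (t.1, t.2 + 1)}

/-- The vertices of `ST^n_3`: the corner points of the small triangles. -/
def Vert (n : ℕ) : Type := {p : ℕ × ℕ // ∃ t ∈ base n, p ∈ tri t}

/-- The Sierpinski triangle graph `ST^n_3`: two different corner points are adjacent when they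
are corners of a common small triangle. -/
def ST (n : ℕ) : SimpleGraph (Vert n) where
  Adj p q := p ≠ q ∧ ∃ t ∈ base n, p.1 ∈ tri t ∧ q.1 ∈ tri t
  symm := ⟨fun _ _ h => ⟨h.1.symm, h.2.imp fun _ ht => ⟨ht.1, ht.2.2, ht.2.1⟩⟩⟩
  loopless := ⟨fun _ h => h.1 rfl⟩

/-- A packing `k`-colouring of `G`: colours in `{1, …, k}`, and two different vertices of the same
colour `i` are at distance larger than `i`. -/
def IsPackingColoring {V : Type} (G : SimpleGraph V) (k : ℕ) (c : V → ℕ) : Prop :=
  (∀ v, 1 ≤ c v ∧ c v ≤ k) ∧ ∀ u v, u ≠ v → c u = c v → c u < G.dist u v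

/-- The packing chromatic number. -/
noncomputable def packingChromaticNumber {V : Type} (G : SimpleGraph V) : ℕ :=
  sInf {k | ∃ c : V → ℕ, IsPackingColoring G k c}

end Pool.Agent.Helper32.SierTri
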